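import Pool.Agent.Results.MP_768068_al.NonNilpotentRadical

set_option linter.unusedSectionVars false

open Pool.Agent.Results.MP_768068_al
open Pool.Agent.Results.MP_768068_al.NonNilpotentRadical

namespace Y375.NR

universe u v

section Notions

variable (Φ : Type u) {A : Type v} [CommRing Φ] [NonUnitalNonAssocRing A] [Module Φ A]

/-- the `n`-th power of `L`: the span of all products of `n` elements of `L`, for all
arrangements of parentheses -/
def Pow (L : Submodule Φ A) (n : ℕ) : Submodule Φ A :=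
  Submodule.span Φ {z | IsProd (L : Set A) n z}

variable [IsScalarTower Φ A A] [SMulCommClass Φ A A]

/-- `L` is the locally nilpotent radical of `A`, it is not the whole of `A`, its powers are
two-sided ideals, they decrease strictly and meet in zero, every two-sided ideal is `0`, `A` or
one of these powers, and the product of two nonzero two-sided ideals is never zero. -/
structure ChainRadical (L : Submodule Φ A) : Prop where
  radical : IsLocallyNilpotentRadical Φ L
  ne_top : L ≠ ⊤
  twoSided : ∀ n, 0 < n → IsTwoSided Φ (Pow Φ L n)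
  strict : ∀ n, 0 < n → Pow Φ L (n + 1) < Pow Φ L n
  inter : ∀ x, (∀ n, 0 < n → x ∈ Pow Φ L n) → x = 0
  ideals : ∀ I : Submodule Φ A, IsTwoSided Φ I → I = ⊥ ∨ I = ⊤ ∨ ∃ n, 0 < n ∧ I = Pow Φ L n
  prime : ∀ I J : Submodule Φ A, IsTwoSided Φ I → IsTwoSided Φ J →
    (∀ x ∈ I, ∀ y ∈ J, x * y = 0) → I = ⊥ ∨ J = ⊥

lemma mul_mem_pow (L : Submodule Φ A) {x y : A} (hx : x ∈ L) {n : ℕ} (hy : y ∈ Pow Φ L n) :
    x * y ∈ Pow Φ L (1 + n) := by
  unfold Pow at hy
  induction hy using Submodule.span_induction with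
  | mem y hy => exact Submodule.subset_span (IsProd.mul (IsProd.elem hx) hy)
  | zero => rw [mul_zero]; exact Submodule.zero_mem _
  | add y z _ _ h1 h2 => rw [mul_add]; exact Submodule.add_mem _ h1 h2
  | smul c y _ h => rw [mul_smul_comm]; exact Submodule.smul_mem _ _ h

end Notions

section Stage

open Classical

variable {F : Type*} [Field F] {Φ : Type*} [CommRing Φ] [Algebra Φ F]

/-- an element of a stage, as an element of the algebra -/
def mk (m : ℕ) (T : Module.End F (Seq → F)) (hT : T ∈ S F m 0) : Alg F := ⟨T, m, hT⟩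

lemma coef_zero {m n : ℕ} (p q : Dig m) (b : Fin (m + 2)) (hb : (b : ℕ) < n)
    {T : Module.End F (Seq → F)} (hT : T ∈ S F m n) : coef m p q b T = 0 := by
  unfold S at hT
  induction hT using Submodule.span_induction with
  | mem x hx =>
    obtain ⟨p', q', a, ha, rfl⟩ := hx
    rw [coef_P, if_neg]
    rintro ⟨_, _, h⟩
    omega
  | zero => simp
  | add y z _ _ h1 h2 => rw [map_add, h1, h2, add_zero]
  | smul c y _ h => rw [map_smul, h, smul_zero]

lemma E_not_mem (n : ℕ) : E F n (fun _ => 0) (fun _ => 0) n ∉ Lvl Φ F (n + 1) := by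
  rintro ⟨m', hm'⟩
  obtain ⟨m, hm'm, hnm⟩ : ∃ m, m' ≤ m ∧ n ≤ m := ⟨max m' n, le_max_left _ _, le_max_right _ _⟩
  have hm := S_le hm'm (n + 1) hm'
  let p : Dig m := fun k => ⟨if (k : ℕ) < n then 0 else n, by split_ifs <;> omega⟩
  have h0 := coef_zero (F := F) p (fun _ => 0) ⟨n, by omega⟩ (Nat.lt_succ_self n) hm
  change P F n (fun _ => 0) (fun _ => 0) n (Pi.single (pt m (fun _ => 0) 0) 1) (pt m p n) = 0 at h0
  have hval : ∀ k, ((pt m p n k : Fin (k + 2)) : ℕ) = if k < n then 0 else n := by
    intro k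
    by_cases hk : k < m
    · simp only [pt, hk, dif_pos, p]
    · have h1 : ¬ k < n := by omega
      simp only [pt, hk, dif_neg, not_false_eq_true, h1, if_false]
      omega
  have hok : Ok n (fun _ => 0) n (pt m p n) := by
    refine ⟨fun k => ?_, fun k hk => ?_⟩
    · apply Fin.ext
      rw [hval, if_pos k.isLt]
      rfl
    · rw [hval, if_neg (by omega)]
  have hglue : glue n (fun _ => 0) n (pt m p n) = pt m (fun _ => 0) 0 := by
    funext k
    apply Fin.ext
    have hr : ((pt m (fun _ => 0) 0 k : Fin (k + 2)) : ℕ) = 0 := by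
      by_cases hk : k < m
      · simp [pt, hk]
      · simp [pt, hk]
    rw [hr]
    by_cases hk : k < n
    · rw [glue_lt (fun _ => 0) n (pt m p n) ⟨k, hk⟩]
      rfl
    · rw [glue_ge _ _ _ (by omega), hval, if_neg hk]
      omega
  rw [P_apply, if_pos hok, hglue, Pi.single_eq_same] at h0
  exact one_ne_zero h0

lemma Lvl_strict (n : ℕ) : Lvl Φ F (n + 1) < Lvl Φ F n := by
  refine lt_of_le_of_ne (Lvl_anti (Nat.le_succ n)) ?_
  intro h
  apply E_not_mem (Φ := Φ) (F := F) n
  rw [h]
  exact ⟨n, P_mem _ _ le_rfl⟩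

lemma E_ne (n a : ℕ) (h : a ≤ n) : E F n (fun _ => 0) (fun _ => 0) a ≠ 0 := by
  intro h1
  have h2 := E_mul (F := F) n (fun _ => 0) (fun _ => 0) (fun _ => 0) (fun _ => 0) a (n - a)
  rw [if_pos rfl, h1, zero_mul, show a + (n - a) = n by omega] at h2
  exact E_ne_zero n h2.symm

section Main

variable {B : Type*} [NonUnitalNonAssocRing B] [Module Φ B] [IsScalarTower Φ B B]
  [SMulCommClass Φ B B] (hs : Function.Surjective (algebraMap Φ F)) (e : B ≃ₗ[Φ] Alg F)
  (lam mu : F) (hlm : lam + mu = 1) (hlam : lam ≠ 0)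
  (hmul : ∀ x y : B, e (x * y) = lam • (e x * e y) + mu • (e y * e x))
  (hU : ∀ I : Submodule Φ B, IsTwoSided Φ I → ∀ x ∈ I, ∀ a : B, e.symm (e a * e x * e a) ∈ I)

include hmul in
lemma isProd_mem {n : ℕ} {z : B}
    (hz : IsProd ((Lvl Φ F 1).comap e.toLinearMap : Set B) n z) : e z ∈ Lvl Φ F n := by
  induction hz with
  | elem hx => exact hx
  | @mul m n x y _ _ h1 h2 =>
    rw [hmul]
    refine Submodule.add_mem _ (Lvl_smul _ (Lvl_mul h1 h2)) (Lvl_smul _ ?_)
    rw [add_comm]
    exact Lvl_mul h2 h1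

include hmul in
lemma pow_le (n : ℕ) : Pow Φ ((Lvl Φ F 1).comap e.toLinearMap) n ≤
    (Lvl Φ F n).comap e.toLinearMap :=
  Submodule.span_le.2 fun _ hz => isProd_mem e lam mu hmul hz

include hs in
lemma fsmul_mem' (I : Submodule Φ B) (c : F) {w : B} (hw : w ∈ I) : e.symm (c • e w) ∈ I := by
  obtain ⟨φ, rfl⟩ := hs c
  rw [algebraMap_smul, map_smul, LinearEquiv.symm_apply_apply]
  exact I.smul_mem _ hw

include hs hlm hlam hmul in
lemma E_mem_pow (m : ℕ) (p q : Dig m) (k : ℕ) : ∀ a, k + 1 ≤ a →
    e.symm (E F m p q a) ∈ Pow Φ ((Lvl Φ F 1).comap e.toLinearMap) (k + 1) := by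
  induction k with
  | zero =>
    intro a ha
    refine Submodule.subset_span (IsProd.elem ?_)
    change e (e.symm _) ∈ Lvl Φ F 1
    rw [LinearEquiv.apply_symm_apply]
    exact ⟨m, P_mem _ _ (by omega)⟩
  | succ k ih =>
    intro a ha
    obtain ⟨b, rfl⟩ : ∃ b, a = 1 + b := ⟨a - 1, by omega⟩
    have h1 := ih b (by omega)
    have h0 : e.symm (E F m p p 1) ∈ (Lvl Φ F 1).comap e.toLinearMap := by
      change e (e.symm _) ∈ Lvl Φ F 1
      rw [LinearEquiv.apply_symm_apply]
      exact ⟨m, P_mem _ _ le_rfl⟩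
    have h2 := mul_mem_pow Φ _ h0 h1
    rw [show 1 + (k + 1) = k + 1 + 1 by omega] at h2
    have h3 : e (e.symm (E F m p p 1) * e.symm (E F m p q b)) =
        lam • E F m p q (1 + b) + mu • (if q = p then E F m p p (b + 1) else 0) := by
      rw [hmul]
      simp only [LinearEquiv.apply_symm_apply]
      rw [E_mul, E_mul, if_pos rfl]
    by_cases hq : q = p
    · subst hq
      rw [if_pos rfl, add_comm b 1, ← add_smul, hlm, one_smul] at h3
      rw [← h3, LinearEquiv.symm_apply_apply]
      exact h2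
    · rw [if_neg hq, smul_zero, add_zero] at h3
      have h4 := fsmul_mem' hs e _ lam⁻¹ h2
      rw [h3, smul_smul, inv_mul_cancel₀ hlam, one_smul] at h4
      exact h4

include hs hlm hlam hmul in
lemma pow_eq (k : ℕ) : Pow Φ ((Lvl Φ F 1).comap e.toLinearMap) (k + 1) =
    (Lvl Φ F (k + 1)).comap e.toLinearMap := by
  apply le_antisymm (pow_le e lam mu hmul _)
  intro x hx
  obtain ⟨m, hm⟩ : e x ∈ Lvl Φ F (k + 1) := hx
  have key : ∀ T ∈ S F m (k + 1), ∀ W : Alg F, W.1 = T →
      e.symm W ∈ Pow Φ ((Lvl Φ F 1).comap e.toLinearMap) (k + 1) := by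
    intro T hT
    have hT' := hT
    unfold S at hT'
    induction hT' using Submodule.span_induction with
    | mem x hx =>
      obtain ⟨p, q, a, ha, rfl⟩ := hx
      intro W hW
      have : W = E F m p q a := Subtype.ext hW
      rw [this]
      exact E_mem_pow hs e lam mu hlm hlam hmul m p q k a ha
    | zero =>
      intro W hW
      have : W = 0 := Subtype.ext hW
      rw [this, map_zero]
      exact Submodule.zero_mem _
    | add y z hy hz h1 h2 =>
      intro W hW
      have : W = mk m y (S_anti (Nat.zero_le _) hy) + mk m z (S_anti (Nat.zero_le _) hz) :=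
        Subtype.ext hW
      rw [this, map_add]
      exact Submodule.add_mem _ (h1 hy _ rfl) (h2 hz _ rfl)
    | smul c y hy h =>
      intro W hW
      have : W = c • mk m y (S_anti (Nat.zero_le _) hy) := Subtype.ext hW
      have h2 := fsmul_mem' hs e _ c (h hy (mk m y (S_anti (Nat.zero_le _) hy)) rfl)
      rw [LinearEquiv.apply_symm_apply] at h2
      rw [this]
      exact h2
  have h2 := key _ hm (e x) rfl
  rw [LinearEquiv.symm_apply_apply] at h2
  exact h2

include hs hlm hlam hmul hU in
theorem chain : ChainRadical Φ ((Lvl Φ F 1).comap e.toLinearMap) := by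
  have hpow := pow_eq hs e lam mu hlm hlam hmul
  have hstr : ∀ n, (Lvl Φ F (n + 1)).comap e.toLinearMap < (Lvl Φ F n).comap e.toLinearMap := by
    intro n
    refine lt_of_le_of_ne (Submodule.comap_mono (Lvl_strict n).le) ?_
    intro h
    have h1 := congrArg (Submodule.map e.toLinearMap) h
    rw [Submodule.map_comap_eq_of_surjective e.surjective,
      Submodule.map_comap_eq_of_surjective e.surjective] at h1
    exact (Lvl_strict (Φ := Φ) (F := F) n).ne h1
  have htop : (Lvl Φ F 0).comap e.toLinearMap = ⊤ := by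
    rw [eq_top_iff]
    intro x _
    exact Lvl_top (Φ := Φ) (e x)
  have hcl : ∀ I : Submodule Φ B, IsTwoSided Φ I →
      I = ⊥ ∨ ∃ a, I = (Lvl Φ F a).comap e.toLinearMap := ideal_classify hs e hU
  have hrad : IsLocallyNilpotentRadical Φ ((Lvl Φ F 1).comap e.toLinearMap) := by
    refine ⟨twoSided_L e lam mu hmul 1, locallyNilpotent_L e lam mu hmul, ?_⟩
    intro I hI hL
    rcases hcl I hI with h | ⟨a, h⟩
    · rw [h]; exact bot_le
    · rcases Nat.eq_zero_or_pos a with rfl | ha
      · exfalso
        have h1 : e.symm 1 ∈ I := by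
          rw [h]
          exact Lvl_top (Φ := Φ) _
        refine one_not_nilpotent e lam mu hlm hmul _ ?_ (hL {e.symm 1} ?_)
        · exact NonUnitalAlgebra.subset_adjoin Φ (by simp)
        · intro x hx
          rw [Finset.mem_singleton.1 hx]
          exact h1
      · rw [h]
        exact Submodule.comap_mono (Lvl_anti ha)
  refine ⟨hrad, ?_, ?_, ?_, ?_, ?_, ?_⟩
  · have h := hstr 0
    rw [htop] at h
    exact h.ne
  · intro n hn
    obtain ⟨k, rfl⟩ := Nat.exists_eq_add_of_le' hn
    rw [hpow k]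
    exact twoSided_L e lam mu hmul _
  · intro n hn
    obtain ⟨k, rfl⟩ := Nat.exists_eq_add_of_le' hn
    rw [hpow k, hpow (k + 1)]
    exact hstr (k + 1)
  · intro x hx
    let I : Submodule Φ B := ⨅ k : ℕ, (Lvl Φ F (k + 1)).comap e.toLinearMap
    have hI : IsTwoSided Φ I := by
      intro y hy a
      rw [Submodule.mem_iInf] at hy
      constructor
      · rw [Submodule.mem_iInf]
        exact fun k => (twoSided_L e lam mu hmul (k + 1) y (hy k) a).1
      · rw [Submodule.mem_iInf]
        exact fun k => (twoSided_L e lam mu hmul (k + 1) y (hy k) a).2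
    have hxI : x ∈ I := by
      rw [Submodule.mem_iInf]
      intro k
      rw [← hpow k]
      exact hx (k + 1) (by omega)
    rcases hcl I hI with h | ⟨a, h⟩
    · rw [h] at hxI
      exact (Submodule.mem_bot Φ).1 hxI
    · exfalso
      have h1 : (Lvl Φ F a).comap e.toLinearMap ≤ (Lvl Φ F (a + 1)).comap e.toLinearMap := by
        rw [← h]
        exact iInf_le _ a
      exact absurd h1 (not_le_of_gt (hstr a))
  · intro I hI
    rcases hcl I hI with h | ⟨a, h⟩
    · exact Or.inl h
    · rcases Nat.eq_zero_or_pos a with rfl | ha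
      · right; left
        rw [h, htop]
      · right; right
        obtain ⟨k, rfl⟩ := Nat.exists_eq_add_of_le' ha
        exact ⟨k + 1, by omega, by rw [hpow k]; exact h⟩
  · intro I J hI hJ h
    rcases hcl I hI with h1 | ⟨a, h1⟩
    · exact Or.inl h1
    · rcases hcl J hJ with h2 | ⟨b, h2⟩
      · exact Or.inr h2
      · exfalso
        have hx : e.symm (E F (a + b) (fun _ => 0) (fun _ => 0) a) ∈ I := by
          rw [h1]
          change e (e.symm _) ∈ Lvl Φ F a
          rw [LinearEquiv.apply_symm_apply]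
          exact ⟨_, P_mem _ _ le_rfl⟩
        have hy : e.symm (E F (a + b) (fun _ => 0) (fun _ => 0) b) ∈ J := by
          rw [h2]
          change e (e.symm _) ∈ Lvl Φ F b
          rw [LinearEquiv.apply_symm_apply]
          exact ⟨_, P_mem _ _ le_rfl⟩
        have h3 := congrArg e (h _ hx _ hy)
        rw [hmul, map_zero] at h3
        simp only [LinearEquiv.apply_symm_apply] at h3
        rw [E_mul, E_mul, if_pos rfl, if_pos rfl, add_comm b a, ← add_smul, hlm, one_smul] at h3
        exact E_ne_zero (a + b) h3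

end Main

theorem chain_assoc (hs : Function.Surjective (algebraMap Φ F)) :
    ChainRadical Φ (Lvl Φ F 1) := by
  have h := chain (F := F) hs (LinearEquiv.refl Φ (Alg F)) 1 0 (by simp) one_ne_zero
    (fun x y => by simp) (fun I hI x hx a => (hI _ (hI x hx a).1 a).2)
  exact h

theorem chain_jordan (hs : Function.Surjective (algebraMap Φ F)) (h2 : (2 : F) ≠ 0) :
    ChainRadical Φ ((Lvl Φ F 1).comap (toAlg Φ F).toLinearMap) := by
  refine chain (F := F) hs (toAlg Φ F) (2 : F)⁻¹ (2 : F)⁻¹ ?_ (inv_ne_zero h2) ?_ ?_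
  · rw [← two_mul, mul_inv_cancel₀ h2]
  · intro x y
    rw [← smul_add]
    rfl
  · intro I hI x hx a
    have h3 : (toAlg Φ F).symm (toAlg Φ F a * toAlg Φ F x * toAlg Φ F a) =
        a * (a * x) + a * (a * x) - (a * a) * x := by
      apply (toAlg F F).injective
      rw [map_sub, map_add]
      simp only [J_mul, LinearEquiv.apply_symm_apply]
      change toAlg F F a * toAlg F F x * toAlg F F a = _
      generalize toAlg F F a = a
      generalize toAlg F F x = b
      have h4 : ∀ z : Alg F, z = (2 : F)⁻¹ • (z + z) := by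
        intro z
        rw [← two_smul F z, smul_smul, inv_mul_cancel₀ h2, one_smul]
      simp only [smul_mul_assoc, mul_smul_comm, ← smul_add, ← smul_sub]
      have h5 : a * b * a = (2 : F)⁻¹ • ((2 : F)⁻¹ •
          (a * b * a + a * b * a + (a * b * a + a * b * a))) := by
        rw [← h4, ← h4]
      rw [h5]
      congr 2
      simp only [mul_add, add_mul, mul_assoc]
      abel
    rw [h3]
    exact sub_mem (add_mem (hI _ (hI x hx a).1 a).1 (hI _ (hI x hx a).1 a).1) (hI x hx (a * a)).1

end Stage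

end Y375.NR
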