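import Pool.Agent.Y375.NR.Chain

set_option linter.unusedSectionVars false

open Pool.Agent.Results.MP_768068_al
open Pool.Agent.Results.MP_768068_al.NonNilpotentRadical

namespace Y375.NR

universe u v

/-! ### The quadratic Jordan algebra `A⁺` of an associative algebra `A`

Its operations are `U_x y = x y x` and `x² = x x`; their linearisations are
`{x y z} = x y z + z y x` and `x ∘ y = x y + y x`. -/

section QNotions

variable (Φ : Type u) {A : Type v} [CommRing Φ] [Ring A] [Algebra Φ A]

/-- outer ideals of `A⁺`: `U_a x ∈ I` for `x ∈ I` and all `a`. -/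
def IsOuterIdeal (I : Submodule Φ A) : Prop := ∀ x ∈ I, ∀ a : A, a * x * a ∈ I

/-- ideals of `A⁺`: `U_a x ∈ I` and `U_x a ∈ I` for `x ∈ I` and all `a`. -/
def IsQIdeal (I : Submodule Φ A) : Prop := ∀ x ∈ I, ∀ a : A, a * x * a ∈ I ∧ x * a * x ∈ I

/-- `QMon T n z`: `z` is a quadratic Jordan monomial of degree `n` in elements of `T`. -/
inductive QMon (T : Set A) : ℕ → A → Prop
  | elem {x : A} (hx : x ∈ T) : QMon T 1 x
  | sq {m : ℕ} {x : A} (hx : QMon T m x) : QMon T (m + m) (x * x)
  | circ {m n : ℕ} {x y : A} (hx : QMon T m x) (hy : QMon T n y) :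
      QMon T (m + n) (x * y + y * x)
  | quad {m n : ℕ} {x y : A} (hx : QMon T m x) (hy : QMon T n y) :
      QMon T (m + n + m) (x * y * x)
  | triple {m n k : ℕ} {x y z : A} (hx : QMon T m x) (hy : QMon T n y) (hz : QMon T k z) :
      QMon T (m + n + k) (x * y * z + z * y * x)

/-- the quadratic Jordan subalgebra generated by `T` -/
def QAdjoin (T : Set A) : Submodule Φ A :=
  sInf {M : Submodule Φ A | T ⊆ M ∧ ∀ x ∈ M, x * x ∈ M ∧ ∀ y ∈ M, x * y * x ∈ M}

/-- all monomials of sufficiently large degree in elements of `T` vanish. -/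
def QNilpotent (T : Set A) : Prop := ∃ n : ℕ, ∀ m, n ≤ m → ∀ z, QMon T m z → z = 0

/-- every quadratic Jordan subalgebra generated by finitely many elements of `I` is nilpotent. -/
def QLocallyNilpotent (I : Submodule Φ A) : Prop :=
  ∀ s : Finset A, (∀ x ∈ s, x ∈ I) → QNilpotent (QAdjoin Φ (s : Set A) : Set A)

/-- `L` is the largest locally nilpotent ideal of `A⁺`. -/
def IsQRadical (L : Submodule Φ A) : Prop :=
  IsQIdeal Φ L ∧ QLocallyNilpotent Φ L ∧
    ∀ I : Submodule Φ A, IsQIdeal Φ I → QLocallyNilpotent Φ I → I ≤ L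

/-- the `n`-th power of `L` in `A⁺`: the span of the monomials of degree at least `n`. -/
def QPow (L : Submodule Φ A) (n : ℕ) : Submodule Φ A :=
  Submodule.span Φ {z | ∃ m, n ≤ m ∧ QMon (L : Set A) m z}

variable (A) in
/-- ascending chain condition on outer ideals (in particular on ideals) of `A⁺`. -/
def QNoetherian : Prop :=
  ∀ I : ℕ → Submodule Φ A, (∀ n, IsOuterIdeal Φ (I n)) → (∀ n, I n ≤ I (n + 1)) →
    ∃ N, ∀ n, N ≤ n → I n = I N

/-- `L` is the locally nilpotent radical of the quadratic Jordan algebra `A⁺`, it is not the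
whole of `A`, its powers are ideals, they decrease strictly and meet in zero, every outer ideal
is `0`, `A` or one of these powers, and `U_I J` is never zero for nonzero outer ideals. -/
structure QChainRadical (L : Submodule Φ A) : Prop where
  radical : IsQRadical Φ L
  ne_top : L ≠ ⊤
  ideal : ∀ n, 0 < n → IsQIdeal Φ (QPow Φ L n)
  strict : ∀ n, 0 < n → QPow Φ L (n + 1) < QPow Φ L n
  inter : ∀ x, (∀ n, 0 < n → x ∈ QPow Φ L n) → x = 0
  ideals : ∀ I : Submodule Φ A, IsOuterIdeal Φ I → I = ⊥ ∨ I = ⊤ ∨ ∃ n, 0 < n ∧ I = QPow Φ L n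
  prime : ∀ I J : Submodule Φ A, IsOuterIdeal Φ I → IsOuterIdeal Φ J →
    (∀ x ∈ I, ∀ y ∈ J, x * y * x = 0) → I = ⊥ ∨ J = ⊥

end QNotions

section Stage

open Classical

variable {F : Type*} [Field F] {Φ : Type*} [CommRing Φ] [Algebra Φ F]

lemma qmon_stage {m : ℕ} {T : Set (Alg F)} (hT : ∀ x ∈ T, x.1 ∈ S F m 1) {k : ℕ} {z : Alg F}
    (hz : QMon T k z) : z.1 ∈ S F m k := by
  induction hz with
  | elem hx => exact hT _ hx
  | sq _ h => exact S_mul h h
  | @circ a b x y _ _ h1 h2 =>
    refine Submodule.add_mem _ (S_mul h1 h2) ?_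
    rw [add_comm a b]
    exact S_mul h2 h1
  | quad _ _ h1 h2 => exact S_mul (S_mul h1 h2) h1
  | @triple a b c x y z _ _ _ h1 h2 h3 =>
    refine Submodule.add_mem _ (S_mul (S_mul h1 h2) h3) ?_
    rw [show a + b + c = c + b + a by omega]
    exact S_mul (S_mul h3 h2) h1

lemma qmon_lvl {k : ℕ} {z : Alg F} (hz : QMon (Lvl Φ F 1 : Set (Alg F)) k z) :
    z ∈ Lvl Φ F k := by
  induction hz with
  | elem hx => exact hx
  | sq _ h => exact Lvl_mul h h
  | @circ a b x y _ _ h1 h2 =>
    refine Submodule.add_mem _ (Lvl_mul h1 h2) ?_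
    rw [add_comm a b]
    exact Lvl_mul h2 h1
  | quad _ _ h1 h2 => exact Lvl_mul (Lvl_mul h1 h2) h1
  | @triple a b c x y z _ _ _ h1 h2 h3 =>
    refine Submodule.add_mem _ (Lvl_mul (Lvl_mul h1 h2) h3) ?_
    rw [show a + b + c = c + b + a by omega]
    exact Lvl_mul (Lvl_mul h3 h2) h1

lemma E_lvl (m : ℕ) (p q : Dig m) {a b : ℕ} (h : b ≤ a) : E F m p q a ∈ Lvl Φ F b :=
  ⟨m, P_mem _ _ h⟩

/-- every `P m p q a` with `a ≥ 1` is itself a monomial of degree `a` in elements of the
first ideal -/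
lemma qmon_E (m : ℕ) (a : ℕ) : ∀ p q : Dig m,
    QMon (Lvl Φ F 1 : Set (Alg F)) (a + 1) (E F m p q (a + 1)) := by
  induction a using Nat.strong_induction_on with
  | _ a ih =>
    intro p q
    rcases Nat.eq_zero_or_pos a with rfl | ha
    · exact QMon.elem (E_lvl m p q le_rfl)
    · obtain ⟨b, rfl⟩ := Nat.exists_eq_add_of_le' ha
      by_cases hpq : q = p
      · subst hpq
        rcases Nat.eq_zero_or_pos b with rfl | hb
        · have h1 := QMon.sq (QMon.elem (T := (Lvl Φ F 1 : Set (Alg F))) (E_lvl m q q le_rfl))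
          rw [E_mul, if_pos rfl] at h1
          exact h1
        · obtain ⟨c, rfl⟩ := Nat.exists_eq_add_of_le' hb
          have h1 := QMon.quad (QMon.elem (T := (Lvl Φ F 1 : Set (Alg F)))
            (E_lvl m q q le_rfl)) (ih c (by omega) q q)
          rw [E_mul, if_pos rfl, E_mul, if_pos rfl] at h1
          have e1 : 1 + (c + 1) + 1 = c + 1 + 1 + 1 := by omega
          rw [e1] at h1
          exact h1
      · have h1 := QMon.circ (QMon.elem (T := (Lvl Φ F 1 : Set (Alg F)))
          (E_lvl m p p le_rfl)) (ih b (by omega) p q)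
        rw [E_mul, if_pos rfl, E_mul, if_neg hpq, add_zero] at h1
        have e1 : 1 + (b + 1) = b + 1 + 1 := by omega
        rw [e1] at h1
        exact h1

lemma qpow_eq (hs : Function.Surjective (algebraMap Φ F)) (k : ℕ) :
    QPow Φ (Lvl Φ F 1) (k + 1) = Lvl Φ F (k + 1) := by
  apply le_antisymm
  · refine Submodule.span_le.2 ?_
    rintro z ⟨m, hm, hz⟩
    exact Lvl_anti hm (qmon_lvl hz)
  · rintro x ⟨m, hm⟩
    have key : ∀ T ∈ S F m (k + 1), ∀ W : Alg F, W.1 = T → W ∈ QPow Φ (Lvl Φ F 1) (k + 1) := by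
      intro T hT
      have hT' := hT
      unfold S at hT'
      induction hT' using Submodule.span_induction with
      | mem x hx =>
        obtain ⟨p, q, a, ha, rfl⟩ := hx
        intro W hW
        have : W = E F m p q a := Subtype.ext hW
        rw [this]
        obtain ⟨b, rfl⟩ := Nat.exists_eq_add_of_le' (show 1 ≤ a by omega)
        exact Submodule.subset_span ⟨b + 1, ha, qmon_E m b p q⟩
      | zero =>
        intro W hW
        have : W = 0 := Subtype.ext hW
        rw [this]
        exact Submodule.zero_mem _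
      | add y z hy hz h1 h2 =>
        intro W hW
        have : W = mk m y (S_anti (Nat.zero_le _) hy) + mk m z (S_anti (Nat.zero_le _) hz) :=
          Subtype.ext hW
        rw [this]
        exact Submodule.add_mem _ (h1 hy _ rfl) (h2 hz _ rfl)
      | smul c y hy h =>
        intro W hW
        have : W = c • mk m y (S_anti (Nat.zero_le _) hy) := Subtype.ext hW
        rw [this]
        exact fsmul_mem hs _ c (h hy (mk m y (S_anti (Nat.zero_le _) hy)) rfl)
    exact key _ hm x rfl

lemma lvl_qideal (a : ℕ) : IsQIdeal Φ (Lvl Φ F a) := by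
  intro x hx b
  have h1 : b * x ∈ Lvl Φ F a := by
    have := Lvl_mul (Lvl_top (Φ := Φ) b) hx
    rwa [zero_add] at this
  have h2 : x * b ∈ Lvl Φ F a := by
    have := Lvl_mul hx (Lvl_top (Φ := Φ) b)
    rwa [add_zero] at this
  constructor
  · have := Lvl_mul h1 (Lvl_top (Φ := Φ) b)
    rwa [add_zero] at this
  · have := Lvl_mul h2 (Lvl_top (Φ := Φ) x)
    rwa [add_zero] at this

lemma qloc : QLocallyNilpotent Φ (Lvl Φ F 1) := by
  intro s h
  obtain ⟨n, hn⟩ := common_stage (LinearEquiv.refl Φ (Alg F)) s h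
  have hadj : ∀ x ∈ QAdjoin Φ (s : Set (Alg F)), x.1 ∈ S F n 1 := by
    let M : Submodule Φ (Alg F) :=
      { carrier := {T | T.1 ∈ S F n 1}
        add_mem' := by
          intro x y hx hy
          have hx' : x.1 ∈ S F n 1 := hx
          have hy' : y.1 ∈ S F n 1 := hy
          have h3 : x.1 + y.1 ∈ S F n 1 := (S F n 1).add_mem hx' hy'
          exact h3
        zero_mem' := (S F n 1).zero_mem
        smul_mem' := by
          intro c x hx
          have : (c • x : Alg F).1 = (algebraMap Φ F c) • x.1 := by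
            rw [algebraMap_smul]; rfl
          change (c • x : Alg F).1 ∈ S F n 1
          rw [this]
          exact Submodule.smul_mem _ _ hx }
    have hM : QAdjoin Φ (s : Set (Alg F)) ≤ M := by
      refine sInf_le ⟨fun x hx => hn x hx, fun x hx => ⟨?_, fun y hy => ?_⟩⟩
      · exact S_anti (by omega) (S_mul (show x.1 ∈ S F n 1 from hx) (show x.1 ∈ S F n 1 from hx))
      · exact S_anti (by omega) (S_mul (S_mul (show x.1 ∈ S F n 1 from hx)
          (show y.1 ∈ S F n 1 from hy)) (show x.1 ∈ S F n 1 from hx))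
    exact fun x hx => hM hx
  refine ⟨n + 2, fun m hm z hz => ?_⟩
  have h1 := qmon_stage hadj hz
  rw [S_eq_bot hm] at h1
  exact Subtype.ext h1

lemma one_ne : (1 : Alg F) ≠ 0 := by
  intro h4
  have h5 : E F 0 (fun _ => 0) (fun _ => 0) 0 = 0 := by
    rw [← mul_one (E F 0 (fun _ => 0) (fun _ => 0) 0), h4, mul_zero]
  exact E_ne_zero _ h5

lemma one_not_qnil (T : Set (Alg F)) (h1 : (1 : Alg F) ∈ T) : ¬ QNilpotent T := by
  rintro ⟨n, h⟩
  have h2 : ∀ k, QMon T (2 ^ k) (1 : Alg F) := by
    intro k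
    induction k with
    | zero => exact QMon.elem h1
    | succ k ih =>
      have h3 := QMon.sq ih
      rw [mul_one] at h3
      rw [pow_succ, mul_two]
      exact h3
  exact one_ne (h _ (Nat.lt_two_pow_self).le _ (h2 n))

/-- all the assertions on the quadratic Jordan algebra, in every characteristic -/
theorem qchain (hs : Function.Surjective (algebraMap Φ F)) :
    QChainRadical Φ (Lvl Φ F 1) := by
  have hpow := qpow_eq (F := F) hs
  have hstr : ∀ n, Lvl Φ F (n + 1) < Lvl Φ F n := fun n => Lvl_strict n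
  have htop : Lvl Φ F 0 = ⊤ := by
    rw [eq_top_iff]
    intro x _
    exact Lvl_top (Φ := Φ) x
  have hcl : ∀ I : Submodule Φ (Alg F), IsOuterIdeal Φ I → I = ⊥ ∨ ∃ a, I = Lvl Φ F a :=
    fun I hI => classify I hI hs
  have hout : ∀ I : Submodule Φ (Alg F), IsQIdeal Φ I → IsOuterIdeal Φ I :=
    fun I hI x hx a => (hI x hx a).1
  refine ⟨⟨lvl_qideal 1, qloc, ?_⟩, ?_, ?_, ?_, ?_, ?_, ?_⟩
  · intro I hI hL
    rcases hcl I (hout I hI) with h | ⟨a, h⟩
    · rw [h]; exact bot_le
    · rcases Nat.eq_zero_or_pos a with rfl | ha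
      · exfalso
        have h1 : (1 : Alg F) ∈ I := by
          rw [h]
          exact Lvl_top (Φ := Φ) _
        refine one_not_qnil _ ?_ (hL {1} ?_)
        · change (1 : Alg F) ∈ QAdjoin Φ _
          rw [QAdjoin, Submodule.mem_sInf]
          rintro M ⟨hM, _⟩
          exact hM (by simp)
        · intro x hx
          rw [Finset.mem_singleton.1 hx]
          exact h1
      · rw [h]
        exact Lvl_anti ha
  · have h := hstr 0
    rw [htop] at h
    exact h.ne
  · intro n hn
    obtain ⟨k, rfl⟩ := Nat.exists_eq_add_of_le' hn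
    rw [hpow k]
    exact lvl_qideal _
  · intro n hn
    obtain ⟨k, rfl⟩ := Nat.exists_eq_add_of_le' hn
    rw [hpow k, hpow (k + 1)]
    exact hstr (k + 1)
  · intro x hx
    have hI : IsOuterIdeal Φ (⨅ k : ℕ, Lvl Φ F (k + 1)) := by
      intro y hy a
      rw [Submodule.mem_iInf] at hy ⊢
      exact fun k => (lvl_qideal (k + 1) y (hy k) a).1
    have hxI : x ∈ ⨅ k : ℕ, Lvl Φ F (k + 1) := by
      rw [Submodule.mem_iInf]
      intro k
      rw [← hpow k]
      exact hx (k + 1) (by omega)
    rcases hcl _ hI with h | ⟨a, h⟩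
    · rw [h] at hxI
      exact (Submodule.mem_bot Φ).1 hxI
    · exfalso
      have h1 : Lvl Φ F a ≤ Lvl Φ F (a + 1) := by
        rw [← h]
        exact iInf_le (fun k : ℕ => Lvl Φ F (k + 1)) a
      exact absurd h1 (not_le_of_gt (hstr a))
  · intro I hI
    rcases hcl I hI with h | ⟨a, h⟩
    · exact Or.inl h
    · rcases Nat.eq_zero_or_pos a with rfl | ha
      · right; left
        rw [h, htop]
      · right; right
        obtain ⟨k, rfl⟩ := Nat.exists_eq_add_of_le' ha
        exact ⟨k + 1, by omega, by rw [hpow k]; exact h⟩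
  · intro I J hI hJ h
    rcases hcl I hI with h1 | ⟨a, h1⟩
    · exact Or.inl h1
    · rcases hcl J hJ with h2 | ⟨b, h2⟩
      · exact Or.inr h2
      · exfalso
        have hx : E F (a + b + a) (fun _ => 0) (fun _ => 0) a ∈ I := by
          rw [h1]
          exact E_lvl _ _ _ le_rfl
        have hy : E F (a + b + a) (fun _ => 0) (fun _ => 0) b ∈ J := by
          rw [h2]
          exact E_lvl _ _ _ le_rfl
        have h3 := h _ hx _ hy
        rw [E_mul, if_pos rfl, E_mul, if_pos rfl] at h3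
        exact E_ne_zero _ h3

theorem qnoetherian (hs : Function.Surjective (algebraMap Φ F)) : QNoetherian Φ (Alg F) := by
  intro I hI hmono
  have hm : Monotone I := monotone_nat_of_le_succ hmono
  by_cases h : ∃ a, ∃ k, I k = Lvl Φ F a
  · obtain ⟨k, hk⟩ := Nat.find_spec h
    refine ⟨k, fun n hn => ?_⟩
    apply le_antisymm _ (hm hn)
    rcases classify (I n) (hI n) hs with h1 | ⟨a, ha⟩
    · rw [h1]; exact bot_le
    · rw [ha, hk]
      exact Lvl_anti (Nat.find_min' h ⟨n, ha⟩)
  · refine ⟨0, fun n _ => ?_⟩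
    have h1 : ∀ n, I n = ⊥ := by
      intro n
      rcases classify (I n) (hI n) hs with h1 | ⟨a, ha⟩
      · exact h1
      · exact absurd ⟨a, n, ha⟩ h
    rw [h1, h1]

theorem qnot_nilpotent : ¬ QNilpotent (Lvl Φ F 1 : Set (Alg F)) := by
  rintro ⟨n, h⟩
  have h1 := h (n + 1) (by omega) _ (qmon_E (Φ := Φ) (F := F) (n + 1) n (fun _ => 0) (fun _ => 0))
  exact E_ne_zero _ h1

end Stage

end Y375.NR
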